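import Pool.Agent.H313.CC.Abs
import Pool.Agent.H313.CC.Dens

/-!
# The Tate conjecture for smooth varieties and almost all cyclic coverings

Let `E` be a number field, or the function field of a curve over a finite field, `ℓ` a prime, `n` prime
to `ℓ`, and `N = n ℓ ^ a` with `a > 0`; we assume that `E` contains the roots of unity of order `N` and
that `N` is not zero in `E`. Let `O` be a Dedekind domain with field of fractions `E` that is finitely
generated as a ring, for instance the ring of integers of a number field. Let `Z` be a smooth variety of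
dimension `m` over `E`, geometrically connected, proper or not: the subset of projective space of
dimension `M` where the forms `G i` vanish and at least one of the forms `H i` does not vanish. Let `F`
be a form whose degree is divisible by `N`, and `U` the subset `F ≠ 0` of `Z`. The forms have
coefficients in `O`. For `v ≠ 0` in `O` let `X_v : w ^ N = v ^ n F` be the covering of `Z` of degree
`N`; it is a covering of `X : w ^ n = F`. We assume that it is smooth, that is, that the subset `F = 0`
of `Z` is a smooth divisor or empty (or we replace `Z` by `U`: the following statements for `U` and `Z`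
are the same).

For a nontrivial character `ψ` of the group of the roots of unity of order `N` let `ℒ_ψ` be the
corresponding Kummer sheaf on `U`. We assume that the cohomology with compact support
`H_c ^ i (U, ℒ_ψ)` is zero for `i ≠ m`; its dimension for `i = m` is `h = |χ(U)|`, the absolute value of
the Euler characteristic. This is so in the following cases.

(a) `Z` is a curve, and `F` is not a power with an exponent which divides `N` (over an algebraic
closure of `E`).

(b) `Z` is affine space, `F = x₀ ^ e f` with `e > 0`, where the affine hypersurface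
`f(x₁, ..., x_m) = 0` of degree `d` is smooth and the leading form of `f` defines a smooth
projective hypersurface (for `m = 2`: it has no multiple factors; for `m = 1` there is no condition);
here `X_v` is the affine hypersurface `w ^ N = v ^ n f(x₁, ..., x_m)`, and `h = (d - 1) ^ m`. There is
no condition on the degree of `f`, since we can choose `e`.

(c) `Z` is projective, and the subset `F = 0` is a smooth divisor (and not empty).

Let `Y` be a smooth projective variety over `E` (or a smooth variety such that the characteristic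
polynomials of Frobenius on the cohomology are rational) and `c` a natural number. For almost all
maximal ideals `p` of `O` the reductions modulo `p` of these data have the same properties. Let `k` be
the residue field, with `q` elements, `χ` a character of `k` of order `N`, and `S` the multiset of the
eigenvalues of Frobenius at `p` on `H_c ^ (2 c - m) (Y)`. The product `charProduct` for `ψ = χ ^ j`,
`0 < j < N`, is the inverse of the `L`-function of `ℒ_ψ`; so `det (1 - T Frob)` on
`H_c ^ m (U, ℒ_ψ)` is a polynomial which is equal to this product if `m` is even, and to its inverse if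
`m` is odd (`IsDet`). Let `C_v` be the part of `H_c ^ m (X_v)` where the covering group acts by the
`ψ ≠ 1`. Then `IsCoverPolynomial` holds for the covering of degree `N` and the polynomial
`P_v = det (1 - T Frob)` on `C_v`, and for the covering of degree `n` and the corresponding polynomial
`P` for `X`. We have `ζ(U) = L₁ / L₂` if `m` is odd, and `ζ(U) = L₂ / L₁` if `m` is even, and `W`, `W_v`,
`W₁`, `W₂` are the polynomials of the tensor products with `H_c ^ (2 c - m) (Y)`.
-/

set_option autoImplicit false
set_option linter.all false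
set_option maxHeartbeats 4000000

open Polynomial NumberField IsDedekindDomain

namespace Pool.Agent.Results.MP_2a05c8_ag.AlmostAllCoverings

open Pool.Agent.TH639.SN (SpacePt normValue chart eulerProduct finite_le deg_pos chart_C_mul
  normValue_C_mul)

section defs

variable {k : Type} [Field k] {M s t : ℕ}

/-- The closed points of the subset `Z` of projective space of dimension `M` over `k` where the forms
`G i` vanish and at least one of the forms `H i` does not vanish. The coordinate of index `index` is
one, the following coordinates are zero, and the preceding ones are the coordinates of the closed point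
`point` of affine space. -/
structure Pt (G : Fin s → MvPolynomial (Fin (M + 1)) k) (H : Fin t → MvPolynomial (Fin (M + 1)) k) :
    Type where
  index : Fin (M + 1)
  point : SpacePt index k
  vanish : ∀ i, normValue index k (chart index (G i)) point = 0
  inside : ∃ i, normValue index k (chart index (H i)) point ≠ 0

variable {G : Fin s → MvPolynomial (Fin (M + 1)) k} {H : Fin t → MvPolynomial (Fin (M + 1)) k}

/-- The degree of a closed point. -/
noncomputable def Pt.degree (z : Pt G H) : ℕ := Pool.Agent.TH639.SN.deg z.index k z.point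

/-- The norm to `k` of the value of the form `F` at a closed point. -/
noncomputable def Pt.value (z : Pt G H) (F : MvPolynomial (Fin (M + 1)) k) : k :=
  normValue z.index k (chart z.index F) z.point

variable (G : Fin s → MvPolynomial (Fin (M + 1)) k) (H : Fin t → MvPolynomial (Fin (M + 1)) k)
  (F : MvPolynomial (Fin (M + 1)) k)

/-- The inverse of the zeta function of the open subset `U` of `Z` where `F` does not vanish. -/
noncomputable def openZetaInv : PowerSeries ℤ :=
  eulerProduct (fun z : {z : Pt G H // z.value F ≠ 0} => z.1.degree)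
    (fun z => 1 - PowerSeries.X ^ z.1.degree)

/-- The product over the closed points `z` of `Z` of the factors `1 - ψ(N F(z)) T ^ (deg z)`, where
`N F(z)` is the norm to `k` of the value of `F` at `z` and `ψ(0) = 0`. It is the inverse of the
`L`-function of the Kummer sheaf of `ψ` for `F`. -/
noncomputable def charProduct {A : Type} [CommRing A] (ψ : MulChar k A) : PowerSeries A :=
  eulerProduct (fun z : Pt G H => z.degree)
    (fun z => 1 - PowerSeries.C (ψ (z.value F)) * PowerSeries.X ^ z.degree)

/-- `Q = f` if `m` is even, and `Q = 1 / f` if `m` is odd. If `1 / f` is the `L`-function of a sheaf whose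
only nonzero cohomology group with compact support is that of degree `m`, then
`Q = det (1 - T Frob)` for this group. -/
def IsDet {A : Type} [CommRing A] (m : ℕ) (f Q : PowerSeries A) : Prop :=
  if Even m then f = Q else f * Q = 1

/-- The zeta function of `U` is `L₂ / L₁` if `m` is even, and `L₁ / L₂` if `m` is odd. -/
structure IsZetaQuotient (m : ℕ) (L₁ L₂ : ℤ[X]) : Prop where
  constant₁ : L₁.coeff 0 = 1
  constant₂ : L₂.coeff 0 = 1
  quotient : if Even m then openZetaInv G H F * (L₂ : PowerSeries ℤ) = (L₁ : PowerSeries ℤ)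
    else openZetaInv G H F * (L₁ : PowerSeries ℤ) = (L₂ : PowerSeries ℤ)

/-- `P` or its inverse is the product of the products `charProduct` for the characters `χ ^ j`,
`0 < j < N`. If the order of `χ` is `N` then the zeta function of the covering `w ^ N = F` of `Z` is
that of `Z` divided by `P` if `m` is even, and multiplied by `P` if `m` is odd. -/
def IsCoverPolynomial {A : Type} [CommRing A] (m : ℕ) (χ : MulChar k A) (N : ℕ) (P : ℤ[X]) : Prop :=
  IsDet m (∏ j ∈ Finset.Ico 1 N, charProduct G H F (χ ^ j))
    (PowerSeries.map (algebraMap ℤ A) (P : PowerSeries ℤ))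

/-- The multiplicity of the zero one of the reduction of `P` modulo `ℓ`. -/
noncomputable def multOne (ℓ : ℕ) (P : ℤ[X]) : ℕ :=
  (P.map (Int.castRingHom (ZMod ℓ))).rootMultiplicity 1

/-- The order of the zero of `P` at `T = 1 / q ^ c`, where `q` is the number of elements of `k`. -/
noncomputable def orderAt (k : Type) (c : ℕ) (P : ℤ[X]) : ℕ :=
  (P.map (Int.castRingHom ℚ)).rootMultiplicity ((Nat.card k : ℚ) ^ c)⁻¹

/-- `W(T)` is the product of the polynomials `P(b T)` for `b` in the multiset `S`: if the reciprocal
zeros of `P` are the `α`, those of `W` are the products `α b`. -/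
def IsTensor {A : Type} [CommRing A] (S : Multiset A) (P W : ℤ[X]) : Prop :=
  W.map (algebraMap ℤ A) = (S.map fun b => (P.map (algebraMap ℤ A)).comp (C b * X)).prod

theorem finite_points [Finite k] (N : ℕ) : {z : Pt G H | z.degree ≤ N}.Finite := by
  have h1 : (⋃ j : Fin (M + 1), (fun z : SpacePt j k => (⟨j, z⟩ : Σ j : Fin (M + 1), SpacePt j k)) ''
      {z : SpacePt j k | Pool.Agent.TH639.SN.deg j k z ≤ N}).Finite :=
    Set.finite_iUnion fun j => (finite_le j k N).image _
  refine Set.Finite.of_finite_image
    (f := fun z : Pt G H => (⟨z.index, z.point⟩ : Σ j : Fin (M + 1), SpacePt j k))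
    (h1.subset ?_) ?_
  · rintro _ ⟨z, hz, rfl⟩
    simp only [Set.mem_iUnion]
    exact ⟨z.index, z.point, hz, rfl⟩
  · intro z _ z' _ h
    cases z
    cases z'
    simp only [Sigma.mk.injEq] at h
    obtain ⟨h1, h2⟩ := h
    subst h1
    rw [heq_iff_eq] at h2
    subst h2
    rfl

theorem degree_pos (z : Pt G H) : 0 < z.degree := deg_pos z.index k z.point

theorem value_C_mul (z : Pt G H) (e : k) :
    z.value (MvPolynomial.C e * F) = e ^ z.degree * z.value F := by
  show normValue z.index k (chart z.index (MvPolynomial.C e * F)) z.point = _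
  rw [chart_C_mul, normValue_C_mul]
  rfl

theorem isDet_iff {A : Type} [CommRing A] {m : ℕ} {f Q : PowerSeries A}
    (hf : PowerSeries.constantCoeff f = 1) :
    IsDet m f Q ↔ Pool.Agent.H313.CC.dE m f = Q := by
  unfold IsDet Pool.Agent.H313.CC.dE
  split_ifs
  · rfl
  · constructor
    · exact Pool.Agent.H313.CC.inv_unique hf
    · intro h
      rw [← h]
      exact PowerSeries.mul_invOfUnit f 1 (by rw [hf]; rfl)

/-- The case of one finite field. -/
theorem finite_field (ℓ a n m : ℕ) (hℓ : ℓ.Prime) (ha : a ≠ 0) (hn0 : 0 < n) (hn : n.Coprime ℓ)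
    [Finite k] (K : Type) [Field K] [NumberField K] [IsGalois ℚ K]
    (χ : MulChar k (𝓞 K)) (hχ : orderOf χ = n * ℓ ^ a)
    (R : ℤ[X]) (S : Multiset (𝓞 K)) (hR : R.map (algebraMap ℤ (𝓞 K)) = (S.map fun b => X - C b).prod)
    (L₁ L₂ P : ℤ[X]) (hL : IsZetaQuotient G H F m L₁ L₂)
    (hP : IsCoverPolynomial G H F m (χ ^ ℓ ^ a) n P)
    (W₁ W₂ W : ℤ[X]) (hW₁ : IsTensor S L₁ W₁) (hW₂ : IsTensor S L₂ W₂) (hW : IsTensor S P W)
    (hpoly : ∀ j ∈ Finset.Ico 1 (n * ℓ ^ a), ∃ Q : (𝓞 K)[X],
      IsDet m (charProduct G H F (χ ^ j)) (Q : PowerSeries (𝓞 K))) (c : ℕ) :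
    ∃ T : Finset kˣ, ℓ ^ a * T.card ≤ (Nat.card k - 1) *
        ((∑ i ∈ Finset.range a, ℓ ^ i) * (multOne ℓ W₁ - multOne ℓ W₂ + multOne ℓ W)) ∧
      ∀ v ∉ T, ∀ Pv Wv : ℤ[X],
        IsCoverPolynomial G H (MvPolynomial.C ((v : k) ^ n) * F) m χ (n * ℓ ^ a) Pv →
          IsTensor S Pv Wv → orderAt k c Wv = orderAt k c W := by
  have hfin : ∀ N, {z : Pt G H | z.degree ≤ N}.Finite := finite_points G H
  have hpos : ∀ z : Pt G H, 0 < z.degree := degree_pos G H
  have hunit : ∀ (F' : MvPolynomial (Fin (M + 1)) k) (ψ : MulChar k (𝓞 K)),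
      PowerSeries.constantCoeff (charProduct G H F' ψ) = 1 := fun F' ψ =>
    Pool.Agent.H313.CC.cE_unit (d := fun z : Pt G H => z.degree) (nv := fun z => z.value F')
      hfin hpos ψ
  have hunits : ∀ (F' : MvPolynomial (Fin (M + 1)) k) (ψ : MulChar k (𝓞 K)) (N : ℕ),
      PowerSeries.constantCoeff (∏ j ∈ Finset.Ico 1 N, charProduct G H F' (ψ ^ j)) = 1 := by
    intro F' ψ N
    rw [map_prod]
    exact Finset.prod_eq_one fun j _ => hunit F' _
  have hz : PowerSeries.constantCoeff (openZetaInv G H F) = 1 :=
    Pool.Agent.H313.CC.one_of_pos (ι := {z : Pt G H // z.value F ≠ 0}) (d := fun z => z.1.degree)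
      (fun N => (hfin N).preimage (Subtype.val_injective.injOn)) (fun z => hpos z.1) _
  have hL' : Pool.Agent.H313.CC.dE m (Pool.Agent.H313.CC.zU (fun z : Pt G H => z.degree)
      (fun z => z.value F)) * (L₂ : PowerSeries ℤ) = (L₁ : PowerSeries ℤ) := by
    have h1 := hL.quotient
    show (if Even m then openZetaInv G H F else PowerSeries.invOfUnit (openZetaInv G H F) 1) *
      (L₂ : PowerSeries ℤ) = _
    split_ifs at h1 ⊢
    · exact h1
    · have h2 : openZetaInv G H F * PowerSeries.invOfUnit (openZetaInv G H F) 1 = 1 :=
        PowerSeries.mul_invOfUnit _ 1 (by rw [hz]; rfl)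
      rw [← h1]
      calc PowerSeries.invOfUnit (openZetaInv G H F) 1 * (openZetaInv G H F * (L₁ : PowerSeries ℤ))
          = (openZetaInv G H F * PowerSeries.invOfUnit (openZetaInv G H F) 1) * L₁ := by ring
        _ = L₁ := by rw [h2, one_mul]
  have hP' : Pool.Agent.H313.CC.dE m (∏ i ∈ Finset.Ico 1 n, Pool.Agent.H313.CC.cE
      (fun z : Pt G H => z.degree) (fun z => z.value F) (χ ^ (i * ℓ ^ a))) =
      PowerSeries.map (algebraMap ℤ (𝓞 K)) (P : PowerSeries ℤ) := by
    rw [← (isDet_iff (hunits F (χ ^ ℓ ^ a) n)).1 hP]
    congr 1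
    refine Finset.prod_congr rfl fun i _ => ?_
    rw [← pow_mul, mul_comm]
    rfl
  obtain ⟨T, hT, hTv⟩ := Pool.Agent.H313.CC.tower_open hℓ ha hn0 hn K hχ m
    (d := fun z : Pt G H => z.degree) (nv := fun z => z.value F) hfin hpos
    S (Pool.Agent.H313.CC.stable hR) hL.constant₂ hL' hW₁ hW₂ hP' hW
    (fun j hj => by
      obtain ⟨Q, hQ⟩ := hpoly j hj
      exact ⟨Q, (isDet_iff (hunit F _)).1 hQ⟩) c
  exact ⟨T, hT, fun v hv Pv Wv hPv hWv =>
    hTv v hv (fun z => z.value (MvPolynomial.C ((v : k) ^ n) * F))
      (fun z => value_C_mul G H F z _) Pv Wv ((isDet_iff (hunits _ χ _)).1 hPv) hWv⟩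

end defs

section residue

variable {O : Type} [CommRing O] [IsDedekindDomain O]

/-- The residue field at the maximal ideal `p`. -/
def Residue (p : HeightOneSpectrum O) : Type := O ⧸ p.asIdeal

noncomputable instance residueField (p : HeightOneSpectrum O) : Field (Residue p) :=
  @Ideal.Quotient.field O _ p.asIdeal p.isMaximal

/-- The reduction modulo `p`. -/
noncomputable def reduce (p : HeightOneSpectrum O) : O →+* Residue p :=
  Ideal.Quotient.mk p.asIdeal

variable {M s t : ℕ}

/-- The reduction of a form. -/
noncomputable def reduceForm (p : HeightOneSpectrum O) (F : MvPolynomial (Fin (M + 1)) O) :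
    MvPolynomial (Fin (M + 1)) (Residue p) :=
  MvPolynomial.map (reduce p) F

/-- The hypotheses at the maximal ideal `p`: the residue field `k` is finite, `χ` is a character of `k`
of order `n ℓ ^ a`, the products for the characters `χ ^ j`, `0 < j < n ℓ ^ a`, are polynomials or
inverses of polynomials, `L₁ / L₂` is the zeta function of `U` over `k` or its inverse, `P` is the
polynomial for the covering `w ^ n = F` of `Z`, the elements of the multiset `S` are the zeros of the
polynomial `R` with integral coefficients, and `W₁`, `W₂`, `W` are the tensor products of `L₁`, `L₂`,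
`P` with `S`. -/
structure IsGood (ℓ a n m : ℕ) {A : Type} [CommRing A] (p : HeightOneSpectrum O)
    (χ : MulChar (Residue p) A) (G : Fin s → MvPolynomial (Fin (M + 1)) O)
    (H : Fin t → MvPolynomial (Fin (M + 1)) O)
    (F : MvPolynomial (Fin (M + 1)) O) (R : ℤ[X]) (S : Multiset A) (L₁ L₂ P W₁ W₂ W : ℤ[X]) :
    Prop where
  finite : Finite (Residue p)
  order : orderOf χ = n * ℓ ^ a
  poly : ∀ j ∈ Finset.Ico 1 (n * ℓ ^ a), ∃ Q : A[X],
    IsDet m (charProduct (fun i => reduceForm p (G i)) (fun i => reduceForm p (H i))
      (reduceForm p F) (χ ^ j)) (Q : PowerSeries A)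
  zeta : IsZetaQuotient (fun i => reduceForm p (G i)) (fun i => reduceForm p (H i))
    (reduceForm p F) m L₁ L₂
  cover : IsCoverPolynomial (fun i => reduceForm p (G i)) (fun i => reduceForm p (H i))
    (reduceForm p F) m (χ ^ ℓ ^ a) n P
  zeros : R.map (algebraMap ℤ A) = (S.map fun b => X - C b).prod
  tensor₁ : IsTensor S L₁ W₁
  tensor₂ : IsTensor S L₂ W₂
  tensor : IsTensor S P W

/-- For `v` not in `p`: if `P_v` is the polynomial for the covering `w ^ (n ℓ ^ a) = v ^ n F` of `Z`
over the residue field of `p`, then the tensor product `W_v` of `P_v` with `S` has the same order of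
vanishing at `1 / q ^ c` as `W`. -/
def SameOrder (ℓ a n m c : ℕ) {A : Type} [CommRing A] (p : HeightOneSpectrum O)
    (χ : MulChar (Residue p) A) (G : Fin s → MvPolynomial (Fin (M + 1)) O)
    (H : Fin t → MvPolynomial (Fin (M + 1)) O)
    (F : MvPolynomial (Fin (M + 1)) O) (S : Multiset A) (W : ℤ[X]) (v : O) : Prop :=
  v ∉ p.asIdeal ∧ ∀ Pv Wv : ℤ[X],
    IsCoverPolynomial (fun i => reduceForm p (G i)) (fun i => reduceForm p (H i))
      (reduceForm p (MvPolynomial.C (v ^ n) * F)) m χ (n * ℓ ^ a) Pv → IsTensor S Pv Wv →
        orderAt (Residue p) c Wv = orderAt (Residue p) c W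

end residue

/-- **The Tate conjecture for smooth varieties and almost all cyclic coverings.**

With the notation above let `I` be an infinite set of maximal ideals `p` of `O` such that the hypotheses
`IsGood` hold (with characters and polynomials depending on `p`) and
`multOne ℓ W₁ - multOne ℓ W₂ + multOne ℓ W < ℓ`. The left side is at most `n h b` where `b` is the
dimension of `H_c ^ (2 c - m) (Y)`: the first difference is the multiplicity for the tensor product
with `H_c ^ m (U, ℒ_ψ)` for a character `ψ` of `ℓ`-power order. So if `n h b < ℓ` all but finitely many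
`p` are such.

Then for every `η > 0` there is a nonzero ideal `𝔪` of `O` with finite index such that, for at least the
proportion `1 - η` of the classes modulo `𝔪`, every `v` in the class has the following property: there
is a `p` in `I` with `v` not in `p`, such that the polynomials `W_v` and `W` over the residue field of
`p` have the same order of vanishing at `1 / q ^ c`. So this holds for all `v` in `O` outside a set of
density zero.

Consequence. Let `i = dim (Y × Z) - c`. The space `H ^ (2 i) (Y × X_v, ℚ_λ (i))` (`λ` a prime, not the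
characteristic of `E`) is the dual of `H_c ^ (2 c) (Y × X_v, ℚ_λ (c))`, which is the direct sum of the
part that comes from `Y × X` and of the tensor product of `H_c ^ (2 c - m) (Y)` with the part of
`H_c ^ m (X_v)` where the covering group acts by the characters `ψ` whose order does not divide `n`.
For these `v` the Frobenius at `p` does not have the eigenvalue one on the twist by `c` of the second
summand. (If `λ` is the residue characteristic of `p` one uses another `p`: we can apply the theorem to
two infinite subsets of `I` without common residue characteristics.) So the classes in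
`H ^ (2 i) (Y × X_v, ℚ_λ (i))` which are invariant under the Galois group of `E` are the inverse images
of the invariant classes for `Y × X`, and `T ^ i (Y × X)` implies `T ^ i (Y × X_v)`.

For `n = 1` we have `X = Z`. For instance let `E` be a number field which contains the roots of unity of
order `ℓ ^ a`, and `f` a polynomial in `m` variables over `E` as in case (b). Then for all smooth
projective varieties `Y` with `(d - 1) ^ m b < ℓ` for all the Betti numbers `b` of `Y` and for all
`v` outside a set of density zero, `T ^ i (Y)` implies `T ^ i (Y × X_v)`, for the affine hypersurface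
`X_v : w ^ (ℓ ^ a) = v f(x₁, ..., x_m)` and all `i`. If `Y` is a point we find that `T ^ i (X_v)` holds
for all `i`, if `(d - 1) ^ m < ℓ`. Similarly, if `Z` is a curve, `T ^ i (Y × Z)` implies
`T ^ i (Y × X_v)` for the curves `X_v : w ^ (ℓ ^ a) = v F` and almost all `v`, if `h b < ℓ`. -/
theorem result (ℓ a n m : ℕ) (hℓ : ℓ.Prime) (ha : a ≠ 0) (hn0 : 0 < n) (hn : n.Coprime ℓ)
    (O : Type) [CommRing O] [IsDedekindDomain O] (K : HeightOneSpectrum O → Type)
    [∀ p, Field (K p)] [∀ p, NumberField (K p)] [∀ p, IsGalois ℚ (K p)] (M s t : ℕ)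
    (G : Fin s → MvPolynomial (Fin (M + 1)) O) (H : Fin t → MvPolynomial (Fin (M + 1)) O)
    (F : MvPolynomial (Fin (M + 1)) O)
    (I : Set (HeightOneSpectrum O)) (hI : I.Infinite)
    (χ : ∀ p : HeightOneSpectrum O, MulChar (Residue p) (𝓞 (K p)))
    (R : HeightOneSpectrum O → ℤ[X]) (S : ∀ p : HeightOneSpectrum O, Multiset (𝓞 (K p)))
    (L₁ L₂ P W₁ W₂ W : HeightOneSpectrum O → ℤ[X])
    (hgood : ∀ p ∈ I,
      IsGood ℓ a n m p (χ p) G H F (R p) (S p) (L₁ p) (L₂ p) (P p) (W₁ p) (W₂ p) (W p))
    (hM : ∀ p ∈ I, multOne ℓ (W₁ p) - multOne ℓ (W₂ p) + multOne ℓ (W p) < ℓ)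
    (c : ℕ) (η : ℝ) (hη : 0 < η) :
    ∃ 𝔪 : Ideal O, 𝔪 ≠ ⊥ ∧ Finite (O ⧸ 𝔪) ∧ (1 - η) * (Nat.card (O ⧸ 𝔪) : ℝ) ≤
      ({x : O ⧸ 𝔪 | ∀ v : O, Ideal.Quotient.mk 𝔪 v = x →
        ∃ p ∈ I, SameOrder ℓ a n m c p (χ p) G H F (S p) (W p) v}.ncard : ℝ) := by
  classical
  have hN : 0 < ℓ ^ a := pow_pos hℓ.pos a
  have hfin : ∀ p ∈ I, Finite (Pool.Agent.H313.CC.Res p) := fun p hp => (hgood p hp).finite
  -- the exceptional units
  have hT : ∀ p : HeightOneSpectrum O, ∃ T : Finset (Residue p)ˣ, p ∈ I →
      ℓ ^ a * T.card ≤ (Nat.card (Residue p) - 1) * (ℓ ^ a - 1) ∧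
      ∀ v ∉ T, ∀ Pv Wv : ℤ[X], IsCoverPolynomial (fun i => reduceForm p (G i))
        (fun i => reduceForm p (H i))
        (MvPolynomial.C ((v : Residue p) ^ n) * reduceForm p F) m (χ p) (n * ℓ ^ a) Pv →
          IsTensor (S p) Pv Wv → orderAt (Residue p) c Wv = orderAt (Residue p) c (W p) := by
    intro p
    by_cases hp : p ∈ I
    · have hg := hgood p hp
      have := hg.finite
      obtain ⟨T, hT, hTv⟩ := finite_field (fun i => reduceForm p (G i))
        (fun i => reduceForm p (H i)) (reduceForm p F) ℓ a n m hℓ ha
        hn0 hn (K p) (χ p) hg.order (R p) (S p) hg.zeros (L₁ p) (L₂ p) (P p) hg.zeta hg.cover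
        (W₁ p) (W₂ p) (W p) hg.tensor₁ hg.tensor₂ hg.tensor hg.poly c
      refine ⟨T, fun _ => ⟨hT.trans (Nat.mul_le_mul_left _ ?_), hTv⟩⟩
      have h1 : multOne ℓ (W₁ p) - multOne ℓ (W₂ p) + multOne ℓ (W p) ≤ ℓ - 1 := by
        have := hM p hp
        omega
      have h2 : (∑ i ∈ Finset.range a, ℓ ^ i) * (ℓ - 1) + 1 = ℓ ^ a := by
        have h3 := geom_sum_mul_add (ℓ - 1) a
        rwa [Nat.sub_add_cancel hℓ.one_lt.le] at h3
      have h4 := Nat.mul_le_mul_left (∑ i ∈ Finset.range a, ℓ ^ i) h1
      omega
    · exact ⟨∅, fun h => absurd h hp⟩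
  choose T hT using hT
  obtain ⟨𝔪, h1, h2, h3⟩ := Pool.Agent.H313.CC.density I hI hfin
    (fun p => {u : Residue p | ∀ v : (Residue p)ˣ, (v : Residue p) = u → v ∈ T p})
    (δ := 1 - 1 / (2 * (ℓ ^ a : ℕ)))
    (by
      rw [sub_nonneg, div_le_one (by positivity)]
      have : (1 : ℝ) ≤ (ℓ ^ a : ℕ) := by exact_mod_cast hN
      linarith)
    (by
      have : (0 : ℝ) < 1 / (2 * (ℓ ^ a : ℕ)) := by positivity
      linarith)
    (fun p hp => by
      have := (hgood p hp).finite
      exact Pool.Agent.H313.CC.exceptional (k := Residue p) hN (hT p hp).1) hη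
  refine ⟨𝔪, h1, h2, h3.trans ?_⟩
  norm_cast
  refine Set.ncard_le_ncard ?_ (Set.toFinite _)
  intro x hx v hv
  obtain ⟨p, hp, hpv⟩ := hx v hv
  have hpv' : ¬ ∀ u : (Residue p)ˣ, (u : Residue p) = reduce p v → u ∈ T p := hpv
  push Not at hpv'
  obtain ⟨u, hu, huT⟩ := hpv'
  have hu' : (u : Residue p) = reduce p v := hu
  refine ⟨p, hp, ?_, ?_⟩
  · intro hvp
    have h4 : reduce p v = 0 := Ideal.Quotient.eq_zero_iff_mem.2 hvp
    rw [h4] at hu'
    exact u.ne_zero hu'
  · intro Pv Wv hPv hWv
    refine (hT p hp).2 u huT Pv Wv ?_ hWv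
    have h5 : reduceForm p (MvPolynomial.C (v ^ n) * F) =
        MvPolynomial.C ((u : Residue p) ^ n) * reduceForm p F := by
      unfold reduceForm
      rw [map_mul, MvPolynomial.map_C, map_pow, hu']
    rwa [h5] at hPv

end Pool.Agent.Results.MP_2a05c8_ag.AlmostAllCoverings
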