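import Pool.Agent.X317.Tate.Core

/-!
# The Tate conjecture for `B × U`, `B` an abelian variety known modulo `ℓ`, `U` any variety

Let `k` be the field with `q` elements and `ℓ` a prime number dividing `q - 1` (`ℓ` is not the prime of
the coefficients of the cohomology). Let `B` be an abelian variety over `k`
isogenous to the product of the powers `A_r ^ n_r`, where the characteristic polynomial `f_r` of the
Frobenius of `A_r`, `2 g_r = deg f_r`, has modulo `ℓ` a zero `x_r` of order `N_r` dividing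
`ℓ ^ g_r + 1`, with `n_r (ℓ ^ g_r - 1) < N_r (ℓ - 1)` (`IsFactor`; e.g. `N_r = ℓ ^ g_r + 1` and
`n_r ≤ ℓ - 1`, for elliptic curves `n_r ≤ ℓ`), and the `N_r` are pairwise coprime. Let `U` be ANY variety
over `k`, smooth projective, open or singular, of any dimension. If `W` is a cohomology group of `U` and
`G` its Frobenius endomorphism, the only condition is that `G` is killed by a monic integral
polynomial whose zeros modulo `ℓ` are roots of unity of an order `M` prime to all `N_r`
(`UnityModulo`). Examples are points, varieties with full level structure `ℓ` (unipotent modulo `ℓ`),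
all iterated cyclic coverings of degree `ℓ` of cellular varieties with rational branch loci, and
other abelian varieties of this type.

Theorem: each generalised eigenclass `t ∈ H^k(B) ⊗ W`, `(Frobenius - q ^ i) ^ s t = 0`, is zero
or `k = 2 a`, `i = a + j`, and `t` is a linear combination of products of `a` divisor classes of `B` and a
class `w ∈ W` with `(G - q ^ j) ^ s w = 0`.

So the Tate conjecture for `B × U`, in all codimensions, follows from the Tate conjecture for `U` in all
codimensions; if the eigenvalues `q ^ j` on the cohomology of `U` are semisimple the same holds for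
`B × U`. For a point `U`: all Tate classes on `B` are combinations of products of divisor classes.

Proof: the eigenvalues are algebraic integers; modulo `ℓ` the zeros of `f_r` are the elements
`x_r ^ (ℓ ^ b)`, `b < 2 g_r`, and `b`, `b + g_r` belong to conjugate zeros. A relation between the
eigenvalues gives modulo `ℓ` a sum `∑ c_a ℓ ^ a` divisible by `N_r` with `|c_a| ≤ n_r`, and then all
`c_a` vanish: the relation consists of conjugate pairs. No Galois group over `ℚ` is used.
-/

set_option autoImplicit false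
set_option linter.all false

open Module TensorProduct Polynomial Pool.Agent.X317.Iso Pool.Agent.X317.Pro

namespace Pool.Agent.Results.MP_2a05c8_ag.ModEllFactors

/-- `f` is the characteristic polynomial of the Frobenius of an abelian variety of dimension `g` over
the field with `q` elements; modulo `ℓ` it has a zero of order `N` dividing `ℓ ^ g + 1`; the number `n`
(the exponent of the abelian variety) is small. -/
structure IsFactor (ℓ q : ℕ) [Fact ℓ.Prime] (f : ℤ[X]) (g n N : ℕ) : Prop where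
  monic : f.Monic
  degree : f.natDegree = 2 * g
  weil : ∀ α : ℂ, aeval α f = 0 → ‖α‖ ^ 2 = (q : ℝ)
  zero : ∃ x : FBar ℓ, aeval x f = 0 ∧ orderOf x = N
  divides : N ∣ ℓ ^ g + 1
  two_lt : 2 < N
  pos : 0 < n
  large : n * (ℓ ^ g - 1) < N * (ℓ - 1)

/-- `F` is the Frobenius endomorphism on the first cohomology group of the product of the powers of
the abelian varieties with exponents `n r`: it is diagonalizable with the characteristic
polynomial `∏ f r ^ n r`. -/
def IsFrobenius {R : Type} [Fintype R] (f : R → ℤ[X]) (n : R → ℕ) {V : Type} [AddCommGroup V]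
    [Module ℂ V] (F : V →ₗ[ℂ] V) : Prop :=
  ∃ (m : ℕ) (b : Basis (Fin m) ℂ V) (μ : Fin m → ℂ), (∀ j, F (b j) = μ j • b j) ∧
    ∏ j, (X - C (μ j)) = ∏ r, (f r).map (Int.castRingHom ℂ) ^ n r

/-- `G` is killed by a monic integral polynomial whose zeros modulo `ℓ` are `M`-th roots of unity. -/
def UnityModulo (ℓ M : ℕ) [Fact ℓ.Prime] {W : Type} [AddCommGroup W] [Module ℂ W]
    (G : W →ₗ[ℂ] W) : Prop :=
  ∃ h : ℤ[X], h.Monic ∧ aeval G h = 0 ∧ ∀ y : FBar ℓ, aeval y h = 0 → y ^ M = 1

/-- `d` is a Tate class in `H²(B)`: by the theorem of Tate, a linear combination of classes of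
divisors. -/
def IsDivisor {V : Type} [AddCommGroup V] [Module ℂ V] (F : V →ₗ[ℂ] V) (q : ℕ) (d : EA V) : Prop :=
  d ∈ EA.pow V 2 ∧ EA.map F d = (q : ℂ) • d

/-- `t` is a generalised eigenvector: `(T - c) ^ s t = 0`. -/
def IsEigen {U : Type} [AddCommGroup U] [Module ℂ U] (T : U →ₗ[ℂ] U) (c : ℂ) (s : ℕ) (t : U) :
    Prop :=
  ((T - c • LinearMap.id : U →ₗ[ℂ] U) ^ s) t = 0

/-- The span of the products of `a` divisor classes of `B` and a class `w` of `U` with
`(G - q ^ j) ^ s w = 0`. -/
noncomputable def products {V W : Type} [AddCommGroup V] [Module ℂ V] [AddCommGroup W] [Module ℂ W]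
    (F : V →ₗ[ℂ] V) (G : W →ₗ[ℂ] W) (q s a j : ℕ) : Submodule ℂ (EA V ⊗[ℂ] W) :=
  Submodule.span ℂ {t | ∃ (Z : Fin a → EA V) (w : W), (∀ l, IsDivisor F q (Z l)) ∧
    IsEigen G ((q : ℂ) ^ j) s w ∧ t = (List.ofFn Z).prod ⊗ₜ[ℂ] w}

/-- The inclusion of `(⋀ ^ k V) ⊗ W` in `(⋀ V) ⊗ W`. -/
noncomputable def inclusion (V W : Type) [AddCommGroup V] [Module ℂ V] [AddCommGroup W]
    [Module ℂ W] (k : ℕ) : Ext V k ⊗[ℂ] W →ₗ[ℂ] EA V ⊗[ℂ] W :=
  TensorProduct.map (EA.pow V k).subtype LinearMap.id

/-- The Frobenius endomorphism of `H^k(B) ⊗ W`. -/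
noncomputable def frob {V W : Type} [AddCommGroup V] [Module ℂ V] [AddCommGroup W] [Module ℂ W]
    (F : V →ₗ[ℂ] V) (G : W →ₗ[ℂ] W) (k : ℕ) : Ext V k ⊗[ℂ] W →ₗ[ℂ] Ext V k ⊗[ℂ] W :=
  TensorProduct.map (Ext.map k F) G

/-- All generalised eigenclasses in `H^k(B) ⊗ W` with the eigenvalue `q ^ i` are zero or
combinations of products of `a = k / 2` divisor classes and a class of `U`. -/
def AllProducts {V W : Type} [AddCommGroup V] [Module ℂ V] [AddCommGroup W] [Module ℂ W]
    (F : V →ₗ[ℂ] V) (G : W →ₗ[ℂ] W) (q : ℕ) : Prop :=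
  ∀ (k i s : ℕ) (t : Ext V k ⊗[ℂ] W), IsEigen (frob F G k) ((q : ℂ) ^ i) s t →
    t = 0 ∨ ∃ a j, k = 2 * a ∧ i = a + j ∧ inclusion V W k t ∈ products F G q s a j

/-- **The Tate conjecture for `B × U`.** -/
theorem result (ℓ q : ℕ) [Fact ℓ.Prime] (hq : 1 < q) (hℓ : ℓ ∣ q - 1) {R : Type} [Fintype R]
    (f : R → ℤ[X]) (g n N : R → ℕ) (hf : ∀ r, IsFactor ℓ q (f r) (g r) (n r) (N r))
    (hN : ∀ r r', r ≠ r' → Nat.Coprime (N r) (N r')) (M : ℕ)
    (hM : ∀ r, Nat.Coprime (N r) M) {V W : Type} [AddCommGroup V] [Module ℂ V] [AddCommGroup W]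
    [Module ℂ W] (F : V →ₗ[ℂ] V) (hF : IsFrobenius f n F) (G : W →ₗ[ℂ] W)
    (hG : UnityModulo ℓ M G) : AllProducts F G q := by
  intro k i s t ht
  classical
  obtain ⟨φ⟩ := exists_red ℓ
  have i1 : CharP (FBar ℓ) ℓ :=
    charP_of_injective_algebraMap (algebraMap (ZMod ℓ) (FBar ℓ)).injective ℓ
  have hqF : (q : FBar ℓ) = 1 := by
    have h1 : ((q - 1 : ℕ) : FBar ℓ) = 0 := (CharP.cast_eq_zero_iff (FBar ℓ) ℓ _).2 hℓ
    rw [Nat.cast_sub hq.le, Nat.cast_one, sub_eq_zero] at h1
    exact h1
  have h1 : ∀ r, ∃ x : FBar ℓ, ((f r).map (Int.castRingHom (FBar ℓ))).eval x = 0 ∧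
      orderOf x = N r := by
    intro r
    obtain ⟨x, hx, hx'⟩ := (hf r).zero
    refine ⟨x, ?_, hx'⟩
    rw [← Pool.Agent.X317.Tate.aeval_eq]
    exact hx
  choose x hx hxN using h1
  have h2 := fun r => Pool.Agent.X317.Tate.labels φ hqF (hf r).monic (hf r).degree (hf r).weil
    (hxN r) (hx r) (hf r).divides (hf r).two_lt (hf r).pos (hf r).large
  choose α hα hφα hαα using h2
  obtain ⟨m, b, μ, hb, hμ⟩ := hF
  obtain ⟨h, hh, hGh, hhM⟩ := hG
  exact Pool.Agent.X317.Tate.core hq φ hqF f g n N x hxN (fun r => (hf r).divides)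
    (fun r => (hf r).large) hN M hM α hα hφα hαα F b μ hb hμ G h hh hGh
    (fun y hy => hhM y (by rw [Pool.Agent.X317.Tate.aeval_eq]; exact hy)) k i s t ht

end Pool.Agent.Results.MP_2a05c8_ag.ModEllFactors
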